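import Pool.Agent.helper55.AV.Spec

/-! # Project av, module PT -/

namespace Pool.Agent.AV

open Finset Function

theorem PT_uniq {k : ℕ} (b b' : Equiv.Perm (Fin k)) (h : ∀ x y, b x < b y ↔ b' x < b' y) :
    b = b' := by
  have h1 : StrictMono (fun x : Fin k => b' (b.symm x)) := by
    intro x y hxy
    show b' (b.symm x) < b' (b.symm y)
    rw [← h, Equiv.apply_symm_apply, Equiv.apply_symm_apply]
    exact hxy
  have h2 : (fun x : Fin k => b' (b.symm x)) = id := by
    refine (StrictMono.range_inj h1 strictMono_id).1 ?_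
    rw [Set.range_id]
    refine Set.eq_univ_of_forall fun y => ⟨b (b'.symm y), ?_⟩
    show b' (b.symm (b (b'.symm y))) = y
    rw [Equiv.symm_apply_apply, Equiv.apply_symm_apply]
  ext x
  have h3 := congrFun h2 (b x)
  simp only [Equiv.symm_apply_apply, id] at h3
  rw [h3]

theorem PT_card {k N : ℕ} (f : Fin k → Fin N) (hf : Injective f) :
    (Set.range f).ncard = k := by
  rw [← Set.image_univ, Set.ncard_image_of_injective _ hf, Set.ncard_univ, Nat.card_eq_fintype_card,
    Fintype.card_fin]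

theorem PT_compl {k l N : ℕ} (e : Fin k ⊕ Fin l ≃ Fin N) :
    Set.range (fun x => e (Sum.inr x)) = (Set.range (fun x => e (Sum.inl x)))ᶜ := by
  ext y
  rw [Set.mem_compl_iff, Set.mem_range, Set.mem_range]
  constructor
  · rintro ⟨x, rfl⟩ ⟨x', hx'⟩
    exact Sum.inl_ne_inr (e.injective hx')
  · intro h
    rcases hz : e.symm y with z | z
    · exact absurd ⟨z, by rw [← hz, Equiv.apply_symm_apply]⟩ h
    · exact ⟨z, by rw [← hz, Equiv.apply_symm_apply]⟩

theorem PT : PT_stmt := by
  intro k l k' l' N b₁ b₂ b₁' b₂' π e e' h h' hr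
  have hm : StrictMono (fun x => e (Sum.inl x)) := fun x y hxy => (h.c11 x y).2 hxy
  have hm' : StrictMono (fun x => e' (Sum.inl x)) := fun x y hxy => (h'.c11 x y).2 hxy
  have hn : StrictMono (fun x => e (Sum.inr x)) := fun x y hxy => (h.c22 x y).2 hxy
  have hn' : StrictMono (fun x => e' (Sum.inr x)) := fun x y hxy => (h'.c22 x y).2 hxy
  have hr2 : Set.range (fun x => e (Sum.inr x)) = Set.range (fun x => e' (Sum.inr x)) := by
    rw [PT_compl, PT_compl, hr]
  have hk : k = k' := by
    rw [← PT_card _ hm.injective, ← PT_card _ hm'.injective, hr]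
  have hl : l = l' := by
    rw [← PT_card _ hn.injective, ← PT_card _ hn'.injective, hr2]
  subst hk
  subst hl
  have e1 := (StrictMono.range_inj hm hm').1 hr
  have e2 := (StrictMono.range_inj hn hn').1 hr2
  refine ⟨rfl, rfl, heq_of_eq (PT_uniq _ _ fun x y => ?_), heq_of_eq (PT_uniq _ _ fun x y => ?_)⟩
  · rw [← h.r11, ← h'.r11]
    have a1 : e (Sum.inl x) = e' (Sum.inl x) := congrFun e1 x
    have a2 : e (Sum.inl y) = e' (Sum.inl y) := congrFun e1 y
    rw [a1, a2]
  · rw [← h.r22, ← h'.r22]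
    have a1 : e (Sum.inr x) = e' (Sum.inr x) := congrFun e2 x
    have a2 : e (Sum.inr y) = e' (Sum.inr y) := congrFun e2 y
    rw [a1, a2]

end Pool.Agent.AV
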