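import Pool.Agent.helper14.AV.Spec4

/-!
# BSC: the tree of cells for a given cutting order (after helper66's BSU)
-/

set_option autoImplicit false

namespace Pool.Agent.helper14.AV

theorem BSC_zero (ι : Type) [DecidableEq ι] (A B : ι → ℝ × ℝ) (W : Finset ι) :
    Part2 A B W ∅ := by
  refine ⟨Unit, inferInstance, ⊥, fun _ => s((), ()), fun _ => ∅, fun _ _ => true, fun _ => (),
    ?_, ?_, ?_, ?_, ?_, ?_, ?_, ?_, ?_⟩
  · exact { preconnected := fun a b => by
              rw [Subsingleton.elim a b]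
            nonempty := ⟨()⟩ }
  · simp
  · intro a ha
    exact absurd ha (by simp)
  · simp
  · intro c
    simp
  · intro i hi
    exact absurd hi (Finset.notMem_empty i)
  · intro c j hj
    exact absurd hj (Finset.notMem_empty j)
  · intro c c' h
    exact absurd (Subsingleton.elim c c') h
  · intro x _ u hu
    exact absurd hu (Finset.notMem_empty u)

theorem BSC_sgt (x : ℝ) : sg true * x = x := by
  unfold sg
  simp

theorem BSC_sgf (x : ℝ) : sg false * x = -x := by
  unfold sg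
  simp

theorem BSC_sign (x y : ℝ) (h : 0 < x * y) : (0 < x ∧ 0 < y) ∨ (x < 0 ∧ y < 0) := by
  rcases lt_trichotomy x 0 with hx | hx | hx
  · right
    refine ⟨hx, ?_⟩
    by_contra hy
    have := mul_nonpos_of_nonpos_of_nonneg hx.le (not_lt.mp hy)
    linarith
  · rw [hx, zero_mul] at h
    exact absurd h (lt_irrefl 0)
  · left
    refine ⟨hx, ?_⟩
    by_contra hy
    have := mul_nonpos_of_nonneg_of_nonpos hx.le (not_lt.mp hy)
    linarith

theorem BSC_step (hJOI : JOI_stmt) (ι : Type) [DecidableEq ι] (A B : ι → ℝ × ℝ)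
    (W U WL UL WR UR : Finset ι) (hdis : Disjoint W U)
    (v : ι) (hv : v ∈ U)
    (hD : ∀ j, j ∈ W ∨ j ∈ U → j ≠ v → 0 < D (A v) (B v) (A j) * D (A v) (B v) (B j))
    (hWL : ∀ j, j ∈ WL ↔ j = v ∨ (j ∈ W ∧ 0 < D (A v) (B v) (A j)))
    (hWR : ∀ j, j ∈ WR ↔ j = v ∨ (j ∈ W ∧ D (A v) (B v) (A j) < 0))
    (hUL : ∀ j, j ∈ UL ↔ j ∈ U ∧ j ≠ v ∧ 0 < D (A v) (B v) (A j))
    (hUR : ∀ j, j ∈ UR ↔ j ∈ U ∧ j ≠ v ∧ D (A v) (B v) (A j) < 0)
    (hL : Part2 A B WL UL) (hR : Part2 A B WR UR) : Part2 A B W U := by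
  classical
  obtain ⟨VL, fL, TL, eL, aL, tL, lL, L1, L2, L3, L4, L5, L6, L7, L8, L9⟩ := hL
  obtain ⟨VR, fR, TR, eR, aR, tR, lR, R1, R2, R3, R4, R5, R6, R7, R8, R9⟩ := hR
  obtain ⟨K, hK, hE⟩ := hJOI VL VR TL TR (lL v) (lR v) L1 R1
  have hvWL : v ∈ WL := (hWL v).2 (Or.inl rfl)
  have hvWR : v ∈ WR := (hWR v).2 (Or.inl rfl)
  have haL : ∀ c, ∀ u ∈ aL c, u ∈ U ∧ u ≠ v := by
    intro c u hu
    have h := (hUL u).1 (L5 c hu)
    exact ⟨h.1, h.2.1⟩
  have haR : ∀ c, ∀ u ∈ aR c, u ∈ U ∧ u ≠ v := by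
    intro c u hu
    have h := (hUR u).1 (R5 c hu)
    exact ⟨h.1, h.2.1⟩
  have hcard : UL.card + UR.card + 1 = U.card := by
    have e1 : UL = (U.erase v).filter (fun j => 0 < D (A v) (B v) (A j)) := by
      ext j
      rw [Finset.mem_filter, Finset.mem_erase, hUL]
      tauto
    have e2 : UR = (U.erase v).filter (fun j => ¬ 0 < D (A v) (B v) (A j)) := by
      ext j
      rw [Finset.mem_filter, Finset.mem_erase, hUR]
      constructor
      · rintro ⟨h1, h2, h3⟩
        exact ⟨⟨h2, h1⟩, not_lt.mpr h3.le⟩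
      · rintro ⟨⟨h2, h1⟩, h3⟩
        refine ⟨h1, h2, ?_⟩
        rcases BSC_sign _ _ (hD j (Or.inr h1) h2) with h | h
        · exact absurd h.1 h3
        · exact h.1
    rw [e1, e2, Finset.card_filter_add_card_filter_not, Finset.card_erase_of_mem hv]
    have := Finset.card_pos.2 ⟨v, hv⟩
    omega
  obtain ⟨e, ev, eT, eF⟩ : ∃ e : ι → Sym2 (VL ⊕ VR), e v = s(Sum.inl (lL v), Sum.inr (lR v)) ∧
      (∀ i, i ≠ v → 0 < D (A v) (B v) (A i) → e i = (eL i).map Sum.inl) ∧
      (∀ i, i ≠ v → D (A v) (B v) (A i) < 0 → e i = (eR i).map Sum.inr) := by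
    refine ⟨fun i => if i = v then s(Sum.inl (lL v), Sum.inr (lR v)) else
      if 0 < D (A v) (B v) (A i) then (eL i).map Sum.inl else (eR i).map Sum.inr, ?_, ?_, ?_⟩
    · simp
    · intro i h1 h2
      simp [h1, h2]
    · intro i h1 h2
      have h2' : ¬ 0 < D (A v) (B v) (A i) := not_lt.mpr h2.le
      simp [h1, h2']
  have tri : ∀ i ∈ U, i = v ∨
      (i ≠ v ∧ (0 < D (A v) (B v) (A i) ∧ 0 < D (A v) (B v) (B i)) ∧ i ∈ UL) ∨
      (i ≠ v ∧ (D (A v) (B v) (A i) < 0 ∧ D (A v) (B v) (B i) < 0) ∧ i ∈ UR) := by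
    intro i hi
    rcases eq_or_ne i v with h | h
    · exact Or.inl h
    · right
      rcases BSC_sign _ _ (hD i (Or.inr hi) h) with hs | hs
      · exact Or.inl ⟨h, hs, (hUL i).2 ⟨hi, h, hs.1⟩⟩
      · exact Or.inr ⟨h, hs, (hUR i).2 ⟨hi, h, hs.1⟩⟩
  have noLR : ∀ (z : Sym2 VL) (z' : Sym2 VR), z.map Sum.inl ≠ z'.map (Sum.inr : VR → VL ⊕ VR) := by
    intro z z' h
    induction z with
    | h a b =>
      have h1 : (Sum.inl a : VL ⊕ VR) ∈ z'.map (Sum.inr : VR → VL ⊕ VR) := by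
        rw [← h]
        exact Sym2.mem_map.2 ⟨a, Sym2.mem_mk_left a b, rfl⟩
      obtain ⟨c, _, hc⟩ := Sym2.mem_map.1 h1
      exact Sum.inr_ne_inl hc
  have nov1 : ∀ z : Sym2 VL, s(Sum.inl (lL v), Sum.inr (lR v)) ≠ z.map (Sum.inl : VL → VL ⊕ VR) := by
    intro z h
    have h1 : (Sum.inr (lR v) : VL ⊕ VR) ∈ z.map (Sum.inl : VL → VL ⊕ VR) := by
      rw [← h]
      exact Sym2.mem_mk_right _ _
    obtain ⟨c, _, hc⟩ := Sym2.mem_map.1 h1
    exact Sum.inl_ne_inr hc
  have nov2 : ∀ z : Sym2 VR, s(Sum.inl (lL v), Sum.inr (lR v)) ≠ z.map (Sum.inr : VR → VL ⊕ VR) := by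
    intro z h
    have h1 : (Sum.inl (lL v) : VL ⊕ VR) ∈ z.map (Sum.inr : VR → VL ⊕ VR) := by
      rw [← h]
      exact Sym2.mem_mk_left _ _
    obtain ⟨c, _, hc⟩ := Sym2.mem_map.1 h1
    exact Sum.inr_ne_inl hc
  refine ⟨VL ⊕ VR, inferInstance, K, e,
    Sum.elim (fun c => insert v (aL c)) (fun c => insert v (aR c)),
    Sum.elim (fun c u => if u = v then true else tL c u) (fun c u => if u = v then false else tR c u),
    fun x => if 0 < D (A v) (B v) (A x) then Sum.inl (lL x) else Sum.inr (lR x),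
    hK, ?_, ?_, ?_, ?_, ?_, ?_, ?_, ?_⟩
  · rw [Fintype.card_sum, L2, R2]
    omega
  · intro i hi j hj hij
    rcases tri i hi with rfl | ⟨i1, i2, i3⟩ | ⟨i1, i2, i3⟩
    · rcases tri j hj with h | ⟨j1, j2, j3⟩ | ⟨j1, j2, j3⟩
      · exact h.symm
      · rw [ev, eT j j1 j2.1] at hij
        exact absurd hij (nov1 _)
      · rw [ev, eF j j1 j2.1] at hij
        exact absurd hij (nov2 _)
    · rcases tri j hj with h | ⟨j1, j2, j3⟩ | ⟨j1, j2, j3⟩
      · rw [h, ev, eT i i1 i2.1] at hij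
        exact absurd hij.symm (nov1 _)
      · rw [eT i i1 i2.1, eT j j1 j2.1] at hij
        exact L3 i3 j3 (Sym2.map.injective Sum.inl_injective hij)
      · rw [eT i i1 i2.1, eF j j1 j2.1] at hij
        exact absurd hij (noLR _ _)
    · rcases tri j hj with h | ⟨j1, j2, j3⟩ | ⟨j1, j2, j3⟩
      · rw [h, ev, eF i i1 i2.1] at hij
        exact absurd hij.symm (nov2 _)
      · rw [eF i i1 i2.1, eT j j1 j2.1] at hij
        exact absurd hij.symm (noLR _ _)
      · rw [eF i i1 i2.1, eF j j1 j2.1] at hij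
        exact R3 i3 j3 (Sym2.map.injective Sum.inr_injective hij)
  · rw [hE, ← L4, ← R4]
    ext z
    constructor
    · rintro ⟨i, hi, rfl⟩
      rcases tri i hi with rfl | ⟨i1, i2, i3⟩ | ⟨i1, i2, i3⟩
      · right
        exact ev
      · left
        left
        exact ⟨eL i, ⟨i, i3, rfl⟩, (eT i i1 i2.1).symm⟩
      · left
        right
        exact ⟨eR i, ⟨i, i3, rfl⟩, (eF i i1 i2.1).symm⟩
    · rintro ((⟨_, ⟨i, hi, rfl⟩, rfl⟩ | ⟨_, ⟨i, hi, rfl⟩, rfl⟩) | h)
      · have h := (hUL i).1 hi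
        exact ⟨i, h.1, eT i h.2.1 h.2.2⟩
      · have h := (hUR i).1 hi
        exact ⟨i, h.1, eF i h.2.1 h.2.2⟩
      · exact ⟨v, hv, ev.trans h.symm⟩
  · rintro (c | c)
    · intro u hu
      rcases Finset.mem_insert.1 hu with rfl | h
      · exact hv
      · exact (haL c u h).1
    · intro u hu
      rcases Finset.mem_insert.1 hu with rfl | h
      · exact hv
      · exact (haR c u h).1
  · intro i hi c hc
    rcases tri i hi with rfl | ⟨i1, i2, i3⟩ | ⟨i1, i2, i3⟩
    · rw [ev, Sym2.mem_iff] at hc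
      rcases hc with rfl | rfl
      · refine ⟨Finset.mem_insert_self _ _, ?_⟩
        intro u hu hne
        have hu' : u ∈ aL (lL i) := (Finset.mem_insert.1 hu).resolve_left hne
        have h := L9 i hvWL u hu'
        simpa only [Sum.elim_inl, if_neg hne] using h
      · refine ⟨Finset.mem_insert_self _ _, ?_⟩
        intro u hu hne
        have hu' : u ∈ aR (lR i) := (Finset.mem_insert.1 hu).resolve_left hne
        have h := R9 i hvWR u hu'
        simpa only [Sum.elim_inr, if_neg hne] using h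
    · rw [eT i i1 i2.1] at hc
      obtain ⟨c', hc', rfl⟩ := Sym2.mem_map.1 hc
      obtain ⟨h1, h2⟩ := L6 i i3 c' hc'
      refine ⟨Finset.mem_insert_of_mem h1, ?_⟩
      intro u hu hne
      rcases Finset.mem_insert.1 hu with rfl | h
      · simp only [Sum.elim_inl, if_true, BSC_sgt]
        exact i2
      · have h3 := h2 u h hne
        simpa only [Sum.elim_inl, if_neg (haL c' u h).2] using h3
    · rw [eF i i1 i2.1] at hc
      obtain ⟨c', hc', rfl⟩ := Sym2.mem_map.1 hc
      obtain ⟨h1, h2⟩ := R6 i i3 c' hc'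
      refine ⟨Finset.mem_insert_of_mem h1, ?_⟩
      intro u hu hne
      rcases Finset.mem_insert.1 hu with rfl | h
      · simp only [Sum.elim_inr, if_true, BSC_sgf]
        exact ⟨by linarith [i2.1], by linarith [i2.2]⟩
      · have h3 := h2 u h hne
        simpa only [Sum.elim_inr, if_neg (haR c' u h).2] using h3
  · rintro (c | c) j hj
    · rcases tri j hj with rfl | ⟨i1, i2, i3⟩ | ⟨i1, i2, i3⟩
      · exact ⟨j, Finset.mem_insert_self _ _, Or.inl rfl⟩
      · obtain ⟨u, hu, h⟩ := L7 c j i3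
        refine ⟨u, Finset.mem_insert_of_mem hu, h.imp id fun h' => ?_⟩
        simpa only [Sum.elim_inl, if_neg (haL c u hu).2] using h'
      · refine ⟨v, Finset.mem_insert_self _ _, Or.inr ?_⟩
        simp only [Sum.elim_inl, if_true, BSC_sgt]
        exact i2
    · rcases tri j hj with rfl | ⟨i1, i2, i3⟩ | ⟨i1, i2, i3⟩
      · exact ⟨j, Finset.mem_insert_self _ _, Or.inl rfl⟩
      · refine ⟨v, Finset.mem_insert_self _ _, Or.inr ?_⟩
        simp only [Sum.elim_inr, if_true, BSC_sgf]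
        exact ⟨by linarith [i2.1], by linarith [i2.2]⟩
      · obtain ⟨u, hu, h⟩ := R7 c j i3
        refine ⟨u, Finset.mem_insert_of_mem hu, h.imp id fun h' => ?_⟩
        simpa only [Sum.elim_inr, if_neg (haR c u hu).2] using h'
  · rintro (c | c) (c' | c') hne
    · obtain ⟨u, h1, h2, h3⟩ := L8 c c' (fun h => hne (by rw [h]))
      refine ⟨u, Finset.mem_insert_of_mem h1, Finset.mem_insert_of_mem h2, ?_⟩
      simpa [(haL c u h1).2] using h3
    · exact ⟨v, Finset.mem_insert_self _ _, Finset.mem_insert_self _ _, by simp⟩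
    · exact ⟨v, Finset.mem_insert_self _ _, Finset.mem_insert_self _ _, by simp⟩
    · obtain ⟨u, h1, h2, h3⟩ := R8 c c' (fun h => hne (by rw [h]))
      refine ⟨u, Finset.mem_insert_of_mem h1, Finset.mem_insert_of_mem h2, ?_⟩
      simpa [(haR c u h1).2] using h3
  · intro x hx u hu
    have hxv : x ≠ v := by
      intro h
      rw [h] at hx
      exact Finset.disjoint_left.mp hdis hx hv
    rcases BSC_sign _ _ (hD x (Or.inl hx) hxv) with hs | hs
    · simp only [if_pos hs.1, Sum.elim_inl] at hu ⊢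
      rcases Finset.mem_insert.1 hu with rfl | h
      · simp only [if_true, BSC_sgt]
        exact hs
      · have h3 := L9 x ((hWL x).2 (Or.inr ⟨hx, hs.1⟩)) u h
        simpa only [if_neg (haL _ u h).2] using h3
    · have hs' : ¬ 0 < D (A v) (B v) (A x) := not_lt.mpr hs.1.le
      simp only [if_neg hs', Sum.elim_inr] at hu ⊢
      rcases Finset.mem_insert.1 hu with rfl | h
      · simp only [if_true, BSC_sgf]
        exact ⟨by linarith [hs.1], by linarith [hs.2]⟩
      · have h3 := R9 x ((hWR x).2 (Or.inr ⟨hx, hs.1⟩)) u h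
        simpa only [if_neg (haR _ u h).2] using h3

theorem BSC (hJOI : JOI_stmt) : BSC_stmt := by
  intro ι _ A B W U hdis hC
  revert hdis
  induction hC with
  | nil W =>
    intro _
    exact BSC_zero ι A B W
  | cut W U WL UL WR UR v hv hD hWL hWR hUL hUR hL hR ihL ihR =>
    intro hdis
    have dL : Disjoint WL UL := by
      rw [Finset.disjoint_left]
      intro j h1 h2
      have h3 := (hUL j).1 h2
      rcases (hWL j).1 h1 with h | h
      · exact h3.2.1 h
      · exact Finset.disjoint_left.mp hdis h.1 h3.1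
    have dR : Disjoint WR UR := by
      rw [Finset.disjoint_left]
      intro j h1 h2
      have h3 := (hUR j).1 h2
      rcases (hWR j).1 h1 with h | h
      · exact h3.2.1 h
      · exact Finset.disjoint_left.mp hdis h.1 h3.1
    exact BSC_step hJOI ι A B W U WL UL WR UR hdis v hv hD hWL hWR hUL hUR (ihL dL) (ihR dR)

end Pool.Agent.helper14.AV
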