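import Pool.Agent.helper14.AV.Spec2

set_option autoImplicit false

namespace Pool.Agent.helper14.AV

theorem CVA_zero (x y : ℝ) (h : x * y ≤ 0) :
    ∃ p q : ℝ, 0 ≤ p ∧ 0 ≤ q ∧ p + q = 1 ∧ p * x + q * y = 0 := by
  by_cases hxy : x - y = 0
  · have hxy' : x = y := by linarith
    have hx : x = 0 := by
      rw [← hxy'] at h
      nlinarith
    exact ⟨1, 0, by norm_num, by norm_num, by norm_num, by rw [hx]; ring⟩
  · have hpos : 0 < (x - y) ^ 2 := by positivity
    refine ⟨(y ^ 2 - x * y) / (x - y) ^ 2, (x ^ 2 - x * y) / (x - y) ^ 2, ?_, ?_, ?_, ?_⟩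
    · apply div_nonneg _ hpos.le
      nlinarith [sq_nonneg y]
    · apply div_nonneg _ hpos.le
      nlinarith [sq_nonneg x]
    · rw [← add_div, div_eq_one_iff_eq hpos.ne']
      ring
    · field_simp
      ring

theorem CVA : CVA_stmt := by
  intro a b c d hab hdis hF
  obtain ⟨p, q, hp, hq, hpq, hz⟩ := CVA_zero _ _ hF
  -- the point on the segment c d
  have hzc : p • c + q • d ∈ segment ℝ c d := ⟨p, q, hp, hq, hpq, rfl⟩
  have hN : 0 < (b.1 - a.1) ^ 2 + (b.2 - a.2) ^ 2 := by
    by_contra hcon
    have h1 : (b.1 - a.1) ^ 2 + (b.2 - a.2) ^ 2 = 0 := by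
      apply le_antisymm (not_lt.mp hcon)
      positivity
    have h2 : b.1 - a.1 = 0 := by nlinarith [sq_nonneg (b.1 - a.1), sq_nonneg (b.2 - a.2)]
    have h3 : b.2 - a.2 = 0 := by nlinarith [sq_nonneg (b.1 - a.1), sq_nonneg (b.2 - a.2)]
    apply hab
    apply Prod.ext
    · linarith
    · linarith
  have hz1 : (p • c + q • d).1 = p * c.1 + q * d.1 := by
    simp [smul_eq_mul]
  have hz2 : (p • c + q • d).2 = p * c.2 + q * d.2 := by
    simp [smul_eq_mul]
  have hFz : (b.1 - a.1) * ((p • c + q • d).2 - a.2) - (b.2 - a.2) * ((p • c + q • d).1 - a.1) = 0 := by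
    rw [hz1, hz2]
    unfold D at hz
    have hq' : q = 1 - p := by linarith
    rw [hq'] at hz ⊢
    linear_combination hz
  generalize p • c + q • d = z at hzc hFz hz1 hz2
  -- the parameter
  obtain ⟨t, ht⟩ : ∃ t : ℝ, t = ((z.1 - a.1) * (b.1 - a.1) + (z.2 - a.2) * (b.2 - a.2)) /
      ((b.1 - a.1) ^ 2 + (b.2 - a.2) ^ 2) := ⟨_, rfl⟩
  have htN : t * ((b.1 - a.1) ^ 2 + (b.2 - a.2) ^ 2) =
      (z.1 - a.1) * (b.1 - a.1) + (z.2 - a.2) * (b.2 - a.2) := by
    rw [ht, div_mul_cancel₀ _ hN.ne']
  have e1 : z.1 = a.1 + t * (b.1 - a.1) := by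
    apply mul_left_cancel₀ hN.ne'
    linear_combination (-(b.1 - a.1)) * htN + (-(b.2 - a.2)) * hFz
  have e2 : z.2 = a.2 + t * (b.2 - a.2) := by
    apply mul_left_cancel₀ hN.ne'
    linear_combination (-(b.2 - a.2)) * htN + (b.1 - a.1) * hFz
  rcases lt_or_ge t 0 with h0 | h0
  · -- t < 0
    right
    have ht1 : 0 < 1 - t := by linarith
    have hzH : z ∈ convexHull ℝ ({b, c, d} : Set (ℝ × ℝ)) := by
      apply segment_subset_convexHull _ _ hzc
      · simp
      · simp
    have hbH : b ∈ convexHull ℝ ({b, c, d} : Set (ℝ × ℝ)) := by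
      apply subset_convexHull
      simp
    have haz : (1 / (1 - t)) • z + (-t / (1 - t)) • b = a := by
      apply Prod.ext
      · show (1 / (1 - t)) * z.1 + (-t / (1 - t)) * b.1 = a.1
        rw [e1]
        field_simp
        ring
      · show (1 / (1 - t)) * z.2 + (-t / (1 - t)) * b.2 = a.2
        rw [e2]
        field_simp
        ring
    rw [← haz]
    refine (convex_convexHull ℝ _) hzH hbH ?_ ?_ ?_
    · positivity
    · apply div_nonneg _ ht1.le
      linarith
    · rw [← add_div]
      apply (div_eq_one_iff_eq ht1.ne').mpr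
      ring
  · rcases le_or_gt t 1 with h1 | h1
    · -- in the segment
      exfalso
      have hzS : z ∈ segment ℝ a b := by
        refine ⟨1 - t, t, by linarith, h0, by ring, ?_⟩
        apply Prod.ext
        · show (1 - t) * a.1 + t * b.1 = z.1
          rw [e1]
          ring
        · show (1 - t) * a.2 + t * b.2 = z.2
          rw [e2]
          ring
      exact Set.disjoint_left.mp hdis hzS hzc
    · -- t > 1
      left
      have ht0 : 0 < t := by linarith
      have hzH : z ∈ convexHull ℝ ({a, c, d} : Set (ℝ × ℝ)) := by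
        apply segment_subset_convexHull _ _ hzc
        · simp
        · simp
      have haH : a ∈ convexHull ℝ ({a, c, d} : Set (ℝ × ℝ)) := by
        apply subset_convexHull
        simp
      have hbz : ((t - 1) / t) • a + (1 / t) • z = b := by
        apply Prod.ext
        · show ((t - 1) / t) * a.1 + (1 / t) * z.1 = b.1
          rw [e1]
          field_simp
          ring
        · show ((t - 1) / t) * a.2 + (1 / t) * z.2 = b.2
          rw [e2]
          field_simp
          ring
      rw [← hbz]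
      refine (convex_convexHull ℝ _) haH hzH ?_ ?_ ?_
      · apply div_nonneg _ ht0.le
        linarith
      · positivity
      · rw [← add_div]
        apply (div_eq_one_iff_eq ht0.ne').mpr
        ring

end Pool.Agent.helper14.AV
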