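import Pool.Agent.helper14.AV.Spec3

set_option autoImplicit false

namespace Pool.Agent.helper14.AV

theorem CVB (hCVA : CVA_stmt) : CVB_stmt := by
  intro ι P Q hci i j u hiu hju bi bj hdis
  by_contra hcon
  have hne : P u ≠ Q u := by
    intro h
    have h1 : (fun x : ι × Bool => if x.2 then P x.1 else Q x.1) (u, true) =
        (fun x : ι × Bool => if x.2 then P x.1 else Q x.1) (u, false) := by
      show (if true = true then P u else Q u) = (if false = true then P u else Q u)
      rw [if_pos rfl, if_neg (by simp)]
      exact h
    have h2 := hci.injective h1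
    have h3 : true = false := congrArg Prod.snd h2
    exact absurd h3 (by simp)
  rcases hCVA (P u) (Q u) _ _ hne hdis.symm (not_lt.mp hcon) with h | h
  · have himg : (fun x : ι × Bool => if x.2 then P x.1 else Q x.1) ''
        ({(u, true), (i, bi), (j, bj)} : Set (ι × Bool)) =
        {P u, (if bi then P i else Q i), (if bj then P j else Q j)} := by
      rw [Set.image_insert_eq, Set.image_insert_eq, Set.image_singleton]
      rfl
    have hm := hci ({(u, true), (i, bi), (j, bj)} : Set (ι × Bool)) (u, false) (by
      rw [himg]
      exact h)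
    simp only [Set.mem_insert_iff, Set.mem_singleton_iff, Prod.mk.injEq] at hm
    rcases hm with ⟨-, hm⟩ | ⟨hm, -⟩ | ⟨hm, -⟩
    · exact absurd hm (by simp)
    · exact hiu hm.symm
    · exact hju hm.symm
  · have himg : (fun x : ι × Bool => if x.2 then P x.1 else Q x.1) ''
        ({(u, false), (i, bi), (j, bj)} : Set (ι × Bool)) =
        {Q u, (if bi then P i else Q i), (if bj then P j else Q j)} := by
      rw [Set.image_insert_eq, Set.image_insert_eq, Set.image_singleton]
      rfl
    have hm := hci ({(u, false), (i, bi), (j, bj)} : Set (ι × Bool)) (u, true) (by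
      rw [himg]
      exact h)
    simp only [Set.mem_insert_iff, Set.mem_singleton_iff, Prod.mk.injEq] at hm
    rcases hm with ⟨-, hm⟩ | ⟨hm, -⟩ | ⟨hm, -⟩
    · exact absurd hm (by simp)
    · exact hiu hm.symm
    · exact hju hm.symm

end Pool.Agent.helper14.AV
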